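import Mathlib

/-!
`MP_93e32b_nt`, Q1, answered negatively.  For an irreducible monic cubic `p ≡ x³ + 2x² + 3x (mod 8)`
(for example `x³ + 2x² + 3x + 8`), a quadratic `q₀ ∈ ℚ[x]` such that `p(q₀(x))` is a sum of two
squares in `ℚ[x]` takes no integer value at any rational point.

Idea: `p` has a root `α ∈ ℤ₂`.  If `p(q₀) = q₁² + q₂²` then, over `ℚ₂`, the factor `q₀ - α` is a sum
of two squares at every point (its leading coefficient is one, and it is coprime to the cofactor).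
If `E = q₀(x₀)` is an integer, both `E - α` and `p(E) / (E - α)` are sums of two squares in `ℤ₂`,
and this is impossible modulo `8`.
-/

namespace Pool.Agent.Results.MP_93e32b_nt.NoSubst

open Polynomial

/-! ### Sums of two squares in `ℚ₂` -/

theorem two_cases (x : ℤ_[2]) : ∃ y : ℤ_[2], x = 2 * y ∨ x = 2 * y + 1 := by
  obtain ⟨n, hn, hx⟩ := PadicInt.exists_mem_range x
  rw [PadicInt.maximalIdeal_eq_span_p, Ideal.mem_span_singleton] at hx
  obtain ⟨y, hy⟩ := hx
  push_cast at hy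
  interval_cases n
  · refine ⟨y, Or.inl ?_⟩
    push_cast at hy
    linear_combination hy
  · refine ⟨y, Or.inr ?_⟩
    push_cast at hy
    linear_combination hy

theorem two_mul_ne_one (y : ℤ_[2]) : 2 * y ≠ 1 := by
  intro h
  have h1 := congrArg (PadicInt.toZMod (p := 2)) h
  rw [map_mul, map_one, map_ofNat] at h1
  have h2 : (2 : ZMod 2) = 0 := by decide
  rw [h2, zero_mul] at h1
  exact zero_ne_one h1

theorem descent (n : ℕ) : ∀ z S T : ℤ_[2], 4 ^ n * z = S ^ 2 + T ^ 2 →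
    ∃ S' T' : ℤ_[2], z = S' ^ 2 + T' ^ 2 := by
  have h2 : (2 : ℤ_[2]) ≠ 0 := two_ne_zero
  induction n with
  | zero =>
    intro z S T h
    exact ⟨S, T, by simpa using h⟩
  | succ n ih =>
    intro z S T h
    obtain ⟨S', hS⟩ := two_cases S
    obtain ⟨T', hT⟩ := two_cases T
    rcases hS with rfl | rfl <;> rcases hT with rfl | rfl
    · apply ih z S' T'
      apply mul_left_cancel₀ h2
      apply mul_left_cancel₀ h2
      linear_combination h
    · exfalso
      apply two_mul_ne_one (2 * 4 ^ n * z - 2 * S' ^ 2 - 2 * T' ^ 2 - 2 * T')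
      linear_combination h
    · exfalso
      apply two_mul_ne_one (2 * 4 ^ n * z - 2 * S' ^ 2 - 2 * T' ^ 2 - 2 * S')
      linear_combination h
    · exfalso
      apply two_mul_ne_one (4 ^ n * z - S' ^ 2 - T' ^ 2 - S' - T')
      apply mul_left_cancel₀ h2
      linear_combination h

/-- `z` is a sum of two squares in `ℚ₂`. -/
def SumSq (z : ℚ_[2]) : Prop := ∃ s t : ℚ_[2], z = s ^ 2 + t ^ 2

theorem SumSq.mul {z w : ℚ_[2]} (hz : SumSq z) (hw : SumSq w) : SumSq (z * w) := by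
  obtain ⟨s, t, rfl⟩ := hz
  obtain ⟨u, v, rfl⟩ := hw
  exact ⟨s * u - t * v, s * v + t * u, by ring⟩

theorem SumSq.div {z w : ℚ_[2]} (hz : SumSq z) (hw : SumSq w) (hw0 : w ≠ 0) :
    SumSq (z / w) := by
  obtain ⟨s, t, h⟩ := hz.mul hw
  refine ⟨s / w, t / w, ?_⟩
  field_simp
  exact h

theorem exists_pow_mul_int (s : ℚ_[2]) :
    ∃ n : ℕ, ∀ m, n ≤ m → ‖(2 : ℚ_[2]) ^ m * s‖ ≤ 1 := by
  obtain ⟨n, hn⟩ := pow_unbounded_of_one_lt ‖s‖ (one_lt_two (α := ℝ))
  refine ⟨n, fun m hm => ?_⟩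
  have h2 : ‖(2 : ℚ_[2])‖ = 2⁻¹ := by
    have := Padic.norm_p (p := 2)
    simpa using this
  rw [norm_mul, norm_pow, h2]
  have h3 : ‖s‖ ≤ 2 ^ m := hn.le.trans (pow_le_pow_right₀ one_le_two hm)
  rw [inv_pow, inv_mul_le_iff₀ (by positivity), mul_one]
  exact h3

theorem SumSq.integral {z : ℤ_[2]} (hz : SumSq (z : ℚ_[2])) :
    ∃ S T : ℤ_[2], z = S ^ 2 + T ^ 2 := by
  obtain ⟨s, t, h⟩ := hz
  obtain ⟨n1, h1⟩ := exists_pow_mul_int s
  obtain ⟨n2, h2⟩ := exists_pow_mul_int t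
  set n := max n1 n2 with hn
  obtain ⟨S, hS⟩ : ∃ S : ℤ_[2], (S : ℚ_[2]) = 2 ^ n * s :=
    ⟨⟨2 ^ n * s, h1 n (le_max_left _ _)⟩, rfl⟩
  obtain ⟨T, hT⟩ : ∃ T : ℤ_[2], (T : ℚ_[2]) = 2 ^ n * t :=
    ⟨⟨2 ^ n * t, h2 n (le_max_right _ _)⟩, rfl⟩
  apply descent n z S T
  have h4 : ((4 : ℤ_[2]) : ℚ_[2]) = 2 * 2 := by
    have : (4 : ℤ_[2]) = ((4 : ℕ) : ℤ_[2]) := by norm_num
    rw [this, PadicInt.coe_natCast]
    norm_num
  apply PadicInt.ext
  rw [PadicInt.coe_mul, PadicInt.coe_pow, PadicInt.coe_add, PadicInt.coe_pow, PadicInt.coe_pow,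
    h, hS, hT, h4, mul_pow]
  ring

theorem sq_ne_neg_one (x : ℚ_[2]) : x ^ 2 ≠ -1 := by
  intro h
  have hn : ‖x‖ ≤ 1 := by
    have h1 : ‖x‖ ^ 2 = 1 := by
      rw [← norm_pow, h, norm_neg, norm_one]
    nlinarith [norm_nonneg x]
  obtain ⟨X, hX⟩ : ∃ X : ℤ_[2], (X : ℚ_[2]) = x := ⟨⟨x, hn⟩, rfl⟩
  have h' : X ^ 2 = -1 := by
    apply PadicInt.ext
    rw [PadicInt.coe_pow, PadicInt.coe_neg, PadicInt.coe_one, hX]
    exact h
  obtain ⟨y, hy⟩ := two_cases X
  rcases hy with hy | hy <;> rw [hy] at h'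
  · apply two_mul_ne_one (-(2 * y ^ 2))
    linear_combination -h'
  · apply two_mul_ne_one (-(y ^ 2 + y))
    apply mul_left_cancel₀ (two_ne_zero (α := ℤ_[2]))
    linear_combination -h'

theorem sq_add_sq_eq_zero {a b : ℚ_[2]} (h : a ^ 2 + b ^ 2 = 0) : a = 0 ∧ b = 0 := by
  by_cases hb : b = 0
  · subst hb
    refine ⟨?_, rfl⟩
    simpa using h
  · exfalso
    apply sq_ne_neg_one (a / b)
    field_simp
    linear_combination h

/-! ### Polynomials over `ℚ₂` -/

theorem sumSq_leadingCoeff (u v : ℚ_[2][X]) : SumSq (u ^ 2 + v ^ 2).leadingCoeff := by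
  set N := max u.natDegree v.natDegree with hN
  have hu : u.natDegree ≤ N := le_max_left _ _
  have hv : v.natDegree ≤ N := le_max_right _ _
  have hcoeff : (u ^ 2 + v ^ 2).coeff (2 * N) = u.coeff N ^ 2 + v.coeff N ^ 2 := by
    rw [coeff_add, coeff_pow_of_natDegree_le hu, coeff_pow_of_natDegree_le hv]
  by_cases h0 : u.coeff N ^ 2 + v.coeff N ^ 2 = 0
  · obtain ⟨h1, h2⟩ := sq_add_sq_eq_zero h0
    rcases max_choice u.natDegree v.natDegree with h | h
    · -- `u` has degree `N`, so `u = 0` and then `N = 0`, `v = 0`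
      have hu0 : u = 0 := by
        rw [← leadingCoeff_eq_zero, leadingCoeff, ← h]; exact h1
      have hN0 : N = 0 := by rw [hN, h, hu0, natDegree_zero]
      have hv0 : v = 0 := by
        rw [← leadingCoeff_eq_zero, leadingCoeff]
        have : v.natDegree = N := by omega
        rw [this]; exact h2
      subst hu0; subst hv0
      exact ⟨0, 0, by simp⟩
    · have hv0 : v = 0 := by
        rw [← leadingCoeff_eq_zero, leadingCoeff, ← h]; exact h2
      have hN0 : N = 0 := by rw [hN, h, hv0, natDegree_zero]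
      have hu0 : u = 0 := by
        rw [← leadingCoeff_eq_zero, leadingCoeff]
        have : u.natDegree = N := by omega
        rw [this]; exact h1
      subst hu0; subst hv0
      exact ⟨0, 0, by simp⟩
  · have hle : (u ^ 2 + v ^ 2).natDegree ≤ 2 * N := by
      apply natDegree_add_le_of_degree_le
      · exact natDegree_pow_le_of_le 2 hu
      · exact natDegree_pow_le_of_le 2 hv
    have hge : 2 * N ≤ (u ^ 2 + v ^ 2).natDegree := by
      apply le_natDegree_of_ne_zero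
      rw [hcoeff]; exact h0
    have heq : (u ^ 2 + v ^ 2).natDegree = 2 * N := le_antisymm hle hge
    rw [leadingCoeff, heq, hcoeff]
    exact ⟨_, _, rfl⟩

/-- A quadratic factor `f` of a sum of two squares, coprime to its cofactor and with leading
coefficient a sum of two squares, takes only sums of two squares as values. -/
theorem sumSq_eval {f G u v : ℚ_[2][X]} (hdeg : f.natDegree = 2) (h : f * G = u ^ 2 + v ^ 2)
    (hcop : IsCoprime f G) (hlc : SumSq f.leadingCoeff) (x : ℚ_[2]) : SumSq (f.eval x) := by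
  have hf0 : f ≠ 0 := by
    intro h0; rw [h0, natDegree_zero] at hdeg; omega
  have hlc0 : f.leadingCoeff ≠ 0 := leadingCoeff_ne_zero.mpr hf0
  set r := u % f with hr
  set s := v % f with hs
  have hrd : r.natDegree ≤ 1 := by
    have h1 : r.natDegree < f.natDegree := natDegree_mod_lt u (by omega)
    omega
  have hsd : s.natDegree ≤ 1 := by
    have h1 : s.natDegree < f.natDegree := natDegree_mod_lt v (by omega)
    omega
  have hu : u = f * (u / f) + r := (EuclideanDomain.div_add_mod u f).symm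
  have hv : v = f * (v / f) + s := (EuclideanDomain.div_add_mod v f).symm
  have hdvd : f ∣ r ^ 2 + s ^ 2 := by
    refine ⟨G - f * (u / f) ^ 2 - 2 * (u / f) * r - f * (v / f) ^ 2 - 2 * (v / f) * s, ?_⟩
    have h1 : f * G = (f * (u / f) + r) ^ 2 + (f * (v / f) + s) ^ 2 := by
      rw [← hu, ← hv]; exact h
    linear_combination -h1
  obtain ⟨g, hg⟩ := hdvd
  have hle : (r ^ 2 + s ^ 2).natDegree ≤ 2 := by
    apply natDegree_add_le_of_degree_le
    · exact natDegree_pow_le_of_le 2 hrd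
    · exact natDegree_pow_le_of_le 2 hsd
  by_cases hg0 : g = 0
  · -- then `r = s = 0` and `f ∣ G`
    exfalso
    rw [hg0, mul_zero] at hg
    have hzero : ∀ n, r.coeff n = 0 ∧ s.coeff n = 0 := by
      have h1 : (r ^ 2 + s ^ 2).coeff (2 * 1) = 0 := by rw [hg, coeff_zero]
      rw [coeff_add, coeff_pow_of_natDegree_le hrd, coeff_pow_of_natDegree_le hsd] at h1
      obtain ⟨hr1, hs1⟩ := sq_add_sq_eq_zero h1
      have h2 : (r ^ 2 + s ^ 2).coeff 0 = 0 := by rw [hg, coeff_zero]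
      rw [coeff_add, sq, sq, mul_coeff_zero, mul_coeff_zero, ← sq, ← sq] at h2
      obtain ⟨hr0, hs0⟩ := sq_add_sq_eq_zero h2
      intro n
      match n with
      | 0 => exact ⟨hr0, hs0⟩
      | 1 => exact ⟨hr1, hs1⟩
      | n + 2 =>
        exact ⟨coeff_eq_zero_of_natDegree_lt (by omega), coeff_eq_zero_of_natDegree_lt (by omega)⟩
    have hr0 : r = 0 := by ext n; rw [(hzero n).1, coeff_zero]
    have hs0 : s = 0 := by ext n; rw [(hzero n).2, coeff_zero]
    have hG : f ∣ G := by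
      refine ⟨(u / f) ^ 2 + (v / f) ^ 2, ?_⟩
      apply mul_left_cancel₀ hf0
      rw [h]
      rw [hr0, add_zero] at hu
      rw [hs0, add_zero] at hv
      calc u ^ 2 + v ^ 2 = (f * (u / f)) ^ 2 + (f * (v / f)) ^ 2 := by rw [← hu, ← hv]
        _ = f * (f * ((u / f) ^ 2 + (v / f) ^ 2)) := by ring
    have hunit : IsUnit f := hcop.isUnit_of_dvd' dvd_rfl hG
    have := natDegree_eq_zero_of_isUnit hunit
    omega
  · have hgd : g.natDegree = 0 := by
      rw [hg, natDegree_mul hf0 hg0, hdeg] at hle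
      omega
    obtain ⟨l, hl⟩ : ∃ l, g = C l := ⟨g.coeff 0, eq_C_of_natDegree_eq_zero hgd⟩
    have hl0 : l ≠ 0 := by
      rintro rfl
      exact hg0 (by rw [hl, C_0])
    have h1 : r.coeff 1 ^ 2 + s.coeff 1 ^ 2 = f.leadingCoeff * l := by
      have : (r ^ 2 + s ^ 2).coeff (2 * 1) = (f * g).coeff (2 * 1) := by rw [hg]
      rw [coeff_add, coeff_pow_of_natDegree_le hrd, coeff_pow_of_natDegree_le hsd, hl,
        coeff_mul_C] at this
      rw [this, leadingCoeff, hdeg]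
    have h2 : r.eval x ^ 2 + s.eval x ^ 2 = f.eval x * l := by
      have : (r ^ 2 + s ^ 2).eval x = (f * g).eval x := by rw [hg]
      rw [eval_add, eval_pow, eval_pow, eval_mul, hl, eval_C] at this
      exact this
    have hlS : SumSq l := by
      have : l = (r.coeff 1 ^ 2 + s.coeff 1 ^ 2) / f.leadingCoeff := by
        rw [h1]; field_simp
      rw [this]
      exact SumSq.div ⟨_, _, rfl⟩ hlc hlc0
    have : f.eval x = (r.eval x ^ 2 + s.eval x ^ 2) / l := by
      rw [h2]; field_simp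
    rw [this]
    exact SumSq.div ⟨_, _, rfl⟩ hlS hl0

/-! ### The 2-adic root and the conclusion -/

/-- Evaluation of a monic integer cubic in a commutative ring. -/
theorem eval_cubic {R : Type} [CommRing R] {p : ℤ[X]} (hm : p.Monic) (hd : p.natDegree = 3)
    (f : ℤ →+* R) (x : R) :
    (p.map f).eval x = x ^ 3 + f (p.coeff 2) * x ^ 2 + f (p.coeff 1) * x + f (p.coeff 0) := by
  rw [eval_map, eval₂_eq_sum_range, hd]
  have h3 : p.coeff 3 = 1 := by
    have := hm.coeff_natDegree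
    rwa [hd] at this
  rw [Finset.sum_range_succ, Finset.sum_range_succ, Finset.sum_range_succ, Finset.sum_range_succ,
    Finset.sum_range_zero, h3, map_one]
  ring

theorem eval_deriv_zero {p : ℤ[X]} : (p.derivative).eval 0 = p.coeff 1 := by
  rw [← coeff_zero_eq_eval_zero, coeff_derivative]
  simp

/-- A `2`-adic root, congruent to `0` modulo `8`. -/
theorem exists_root {p : ℤ[X]} (hm : p.Monic) (hd : p.natDegree = 3)
    (h2 : ((p.coeff 2 : ℤ) : ZMod (2 ^ 3)) = 2) (h1 : ((p.coeff 1 : ℤ) : ZMod (2 ^ 3)) = 3)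
    (h0 : ((p.coeff 0 : ℤ) : ZMod (2 ^ 3)) = 0) :
    ∃ α : ℤ_[2], (p.map (Int.castRingHom ℤ_[2])).eval α = 0 ∧
      PadicInt.toZModPow 3 α = 0 := by
  have hc0 : (2 : ℤ) ∣ p.coeff 0 := by
    have h8 : ((8 : ℕ) : ℤ) ∣ p.coeff 0 := (ZMod.intCast_zmod_eq_zero_iff_dvd _ 8).mp h0
    exact dvd_trans (by norm_num) h8
  have hc1 : ¬ (2 : ℤ) ∣ p.coeff 1 := by
    intro h
    have h8 : ((8 : ℕ) : ℤ) ∣ p.coeff 1 - 3 := by
      rw [← ZMod.intCast_zmod_eq_zero_iff_dvd]
      push_cast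
      have h1' : ((p.coeff 1 : ℤ) : ZMod 8) = 3 := h1
      rw [h1']; decide
    have : (2 : ℤ) ∣ p.coeff 1 - 3 := dvd_trans (by norm_num) h8
    omega
  have hn0 : ‖((p.coeff 0 : ℤ) : ℤ_[2])‖ < 1 := by
    rw [PadicInt.norm_int_lt_one_iff_dvd]
    exact_mod_cast hc0
  have hn1 : ‖((p.coeff 1 : ℤ) : ℤ_[2])‖ = 1 := by
    apply le_antisymm (PadicInt.norm_le_one _)
    by_contra hcon
    push Not at hcon
    rw [PadicInt.norm_int_lt_one_iff_dvd] at hcon
    exact hc1 (by exact_mod_cast hcon)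
  have hev0 : aeval (0 : ℤ_[2]) p = ((p.coeff 0 : ℤ) : ℤ_[2]) := by
    rw [← coeff_zero_eq_aeval_zero']
    simp
  have hev1 : aeval (0 : ℤ_[2]) p.derivative = ((p.coeff 1 : ℤ) : ℤ_[2]) := by
    rw [← coeff_zero_eq_aeval_zero', coeff_derivative]
    simp
  obtain ⟨α, hα, -⟩ := hensels_lemma (p := 2) (F := p) (a := (0 : ℤ_[2])) (by
    rw [hev0, hev1, hn1]; simpa using hn0)
  have hroot : (p.map (Int.castRingHom ℤ_[2])).eval α = 0 := by
    rw [eval_map]
    exact hα
  refine ⟨α, hroot, ?_⟩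
  have h := congrArg (PadicInt.toZModPow (p := 2) 3) hroot
  rw [eval_cubic hm hd] at h
  simp only [map_add, map_mul, map_pow, map_zero, eq_intCast, map_intCast] at h
  rw [h2, h1, h0] at h
  revert h
  generalize PadicInt.toZModPow (p := 2) 3 α = x
  revert x
  decide

/-- The main statement for one polynomial. -/
theorem main {p : ℤ[X]} (hm : p.Monic) (hd : p.natDegree = 3) (hirr : Irreducible p)
    (h2 : ((p.coeff 2 : ℤ) : ZMod (2 ^ 3)) = 2) (h1 : ((p.coeff 1 : ℤ) : ZMod (2 ^ 3)) = 3)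
    (h0 : ((p.coeff 0 : ℤ) : ZMod (2 ^ 3)) = 0)
    {q₀ q₁ q₂ : ℚ[X]} (hq : q₀.natDegree = 2)
    (hid : (p.map (Int.castRingHom ℚ)).comp q₀ = q₁ ^ 2 + q₂ ^ 2) (x₀ : ℚ) (E : ℤ) :
    q₀.eval x₀ ≠ (E : ℚ) := by
  intro hE
  obtain ⟨α, hα, hα8⟩ := exists_root hm hd h2 h1 h0
  set φ : ℚ →+* ℚ_[2] := algebraMap ℚ ℚ_[2] with hφ
  set P : ℚ_[2][X] := p.map (Int.castRingHom ℚ_[2]) with hP
  have hPmap : (p.map (Int.castRingHom ℚ)).map φ = P := by
    rw [hP, Polynomial.map_map]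
    congr 1
  set Q₀ := q₀.map φ with hQ₀
  set Q₁ := q₁.map φ with hQ₁
  set Q₂ := q₂.map φ with hQ₂
  have hcomp : P.comp Q₀ = Q₁ ^ 2 + Q₂ ^ 2 := by
    rw [← hPmap, hQ₀, ← Polynomial.map_comp, hid, Polynomial.map_add, Polynomial.map_pow,
      Polynomial.map_pow]
  have hPm : P.Monic := hm.map _
  have hQdeg : Q₀.natDegree = 2 := by rw [hQ₀, natDegree_map, hq]
  -- separability
  have hsep : P.Separable := by
    rw [← hPmap]
    apply Separable.map
    apply Irreducible.separable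
    exact (hm.irreducible_iff_irreducible_map_fraction_map (K := ℚ)).mp hirr
  -- the root
  have hroot : P.eval (α : ℚ_[2]) = 0 := by
    have h : ((α ^ 3 + (p.coeff 2 : ℤ_[2]) * α ^ 2 + (p.coeff 1 : ℤ_[2]) * α +
        (p.coeff 0 : ℤ_[2]) : ℤ_[2]) : ℚ_[2]) = ((0 : ℤ_[2]) : ℚ_[2]) := by
      have h' := hα
      rw [eval_cubic hm hd] at h'
      simp only [eq_intCast] at h'
      rw [h']
    rw [hP, eval_cubic hm hd]
    simp only [eq_intCast]
    rw [PadicInt.coe_add, PadicInt.coe_add, PadicInt.coe_add, PadicInt.coe_mul, PadicInt.coe_mul,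
      PadicInt.coe_pow, PadicInt.coe_pow, PadicInt.coe_intCast, PadicInt.coe_intCast,
      PadicInt.coe_intCast, PadicInt.coe_zero] at h
    exact h
  obtain ⟨g, hg⟩ : X - C (α : ℚ_[2]) ∣ P := dvd_iff_isRoot.mpr hroot
  have hcop0 : IsCoprime (X - C (α : ℚ_[2])) g := by
    apply Separable.isCoprime
    rw [← hg]; exact hsep
  set f := Q₀ - C (α : ℚ_[2]) with hf
  have hcop : IsCoprime f (g.comp Q₀) := by
    have := hcop0.map (compRingHom Q₀)
    simpa [hf] using this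
  have hprod : f * g.comp Q₀ = Q₁ ^ 2 + Q₂ ^ 2 := by
    rw [← hcomp, hg, mul_comp, sub_comp, X_comp, C_comp]
  have hfdeg : f.natDegree = 2 := by
    rw [hf, natDegree_sub_C, hQdeg]
  have hflc : f.leadingCoeff = Q₀.leadingCoeff := by
    rw [leadingCoeff, leadingCoeff, hfdeg, hQdeg, hf, coeff_sub, coeff_C]
    simp
  have hlc : SumSq f.leadingCoeff := by
    have h3 := sumSq_leadingCoeff Q₁ Q₂
    rw [← hcomp, leadingCoeff_comp (by omega), hPm.leadingCoeff, one_mul] at h3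
    have hPd : P.natDegree = 3 := by rw [hP, hm.natDegree_map, hd]
    rw [hPd] at h3
    obtain ⟨s, t, hst⟩ := h3
    have hne : Q₀.leadingCoeff ≠ 0 := by
      rw [leadingCoeff_ne_zero]
      intro h
      rw [h, natDegree_zero] at hQdeg
      omega
    rw [hflc]
    refine ⟨s / Q₀.leadingCoeff, t / Q₀.leadingCoeff, ?_⟩
    field_simp
    linear_combination hst
  -- evaluate at `x₀`
  have hval := sumSq_eval hfdeg hprod hcop hlc (φ x₀)
  have hQE : Q₀.eval (φ x₀) = (E : ℚ_[2]) := by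
    rw [hQ₀, eval_map_apply, hE]
    simp
  have hfE : f.eval (φ x₀) = (((E : ℤ_[2]) - α : ℤ_[2]) : ℚ_[2]) := by
    rw [hf, eval_sub, hQE, eval_C, PadicInt.coe_sub, PadicInt.coe_intCast]
  rw [hfE] at hval
  set y : ℤ_[2] := (E : ℤ_[2]) - α with hy
  set a : ℤ := p.coeff 2 with ha
  set b : ℤ := p.coeff 1 with hb
  set c : ℤ := p.coeff 0 with hc
  set w : ℤ_[2] := y ^ 2 + (3 * α + a) * y + (3 * α ^ 2 + 2 * a * α + b) with hw
  have hαeq : α ^ 3 + a * α ^ 2 + b * α + c = 0 := by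
    rw [eval_cubic hm hd] at hα
    simpa using hα
  have hPE : P.eval (E : ℚ_[2]) = ((y * w : ℤ_[2]) : ℚ_[2]) := by
    have h5 : (y * w : ℤ_[2]) = (E : ℤ_[2]) ^ 3 + a * (E : ℤ_[2]) ^ 2 + b * (E : ℤ_[2]) + c := by
      rw [hw, hy]
      linear_combination -hαeq
    rw [h5, hP, eval_cubic hm hd]
    simp only [eq_intCast]
    rw [PadicInt.coe_add, PadicInt.coe_add, PadicInt.coe_add, PadicInt.coe_mul, PadicInt.coe_mul,
      PadicInt.coe_pow, PadicInt.coe_pow, PadicInt.coe_intCast, PadicInt.coe_intCast,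
      PadicInt.coe_intCast, PadicInt.coe_intCast]
  have hyw : SumSq ((y * w : ℤ_[2]) : ℚ_[2]) := by
    rw [← hPE, ← hQE, ← eval_comp, hcomp, eval_add, eval_pow, eval_pow]
    exact ⟨_, _, rfl⟩
  have hy0 : y ≠ 0 := by
    intro h
    have hEα : α = (E : ℤ_[2]) := by
      rw [hy] at h
      exact (sub_eq_zero.mp h).symm
    rw [hEα] at hαeq
    have hEint : E ^ 3 + a * E ^ 2 + b * E + c = 0 := by exact_mod_cast hαeq
    have hrootZ : p.IsRoot E := by
      have := eval_cubic hm hd (RingHom.id ℤ) E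
      rw [Polynomial.map_id] at this
      rw [IsRoot, this]
      simpa using hEint
    obtain ⟨q, hpq⟩ := dvd_iff_isRoot.mpr hrootZ
    have hq0 : q ≠ 0 := by
      rintro rfl
      rw [mul_zero] at hpq
      rw [hpq, natDegree_zero] at hd
      omega
    have hdeg1 : p.natDegree = 1 + q.natDegree := by
      rw [hpq, natDegree_mul (X_sub_C_ne_zero E) hq0, natDegree_X_sub_C]
    rcases hirr.isUnit_or_isUnit hpq with hu | hu
    · have := natDegree_eq_zero_of_isUnit hu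
      rw [natDegree_X_sub_C] at this
      omega
    · have := natDegree_eq_zero_of_isUnit hu
      omega
  have hyQ : (y : ℚ_[2]) ≠ 0 := by
    intro h
    apply hy0
    apply PadicInt.ext
    rw [h, PadicInt.coe_zero]
  have hwS : SumSq (w : ℚ_[2]) := by
    have : (w : ℚ_[2]) = ((y * w : ℤ_[2]) : ℚ_[2]) / (y : ℚ_[2]) := by
      rw [PadicInt.coe_mul]; field_simp
    rw [this]
    exact hyw.div hval hyQ
  obtain ⟨S, T, hST⟩ := hval.integral
  obtain ⟨S', T', hST'⟩ := hwS.integral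
  have e1 := congrArg (PadicInt.toZModPow (p := 2) 3) hST
  have e2 := congrArg (PadicInt.toZModPow (p := 2) 3) hST'
  rw [hw] at e2
  simp only [map_add, map_mul, map_pow, map_intCast, map_ofNat, hα8, h2, h1] at e1 e2
  rw [e1] at e2
  revert e2
  generalize PadicInt.toZModPow (p := 2) 3 S = s
  generalize PadicInt.toZModPow (p := 2) 3 T = t
  generalize PadicInt.toZModPow (p := 2) 3 S' = s'
  generalize PadicInt.toZModPow (p := 2) 3 T' = t'
  revert s t s' t'
  decide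

/-- The cubic `x³ + 2x² + 3x + 8`. -/
theorem example_eq : (X ^ 3 + 2 * X ^ 2 + 3 * X + 8 : ℤ[X]) =
    C 1 * X ^ 3 + C 2 * X ^ 2 + C 3 * X + C 8 := by
  simp

theorem example_monic : (X ^ 3 + 2 * X ^ 2 + 3 * X + 8 : ℤ[X]).Monic := by
  rw [example_eq, Monic, leadingCoeff_cubic one_ne_zero]

theorem example_natDegree : (X ^ 3 + 2 * X ^ 2 + 3 * X + 8 : ℤ[X]).natDegree = 3 := by
  rw [example_eq, natDegree_cubic one_ne_zero]

theorem example_irreducible : Irreducible (X ^ 3 + 2 * X ^ 2 + 3 * X + 8 : ℤ[X]) := by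
  rw [example_monic.irreducible_iff_roots_eq_zero_of_degree_le_three
    (by rw [example_natDegree]; norm_num) (by rw [example_natDegree])]
  rw [Multiset.eq_zero_iff_forall_notMem]
  intro n hn
  have h := (mem_roots'.mp hn).2
  rw [IsRoot] at h
  simp only [eval_add, eval_mul, eval_pow, eval_X, eval_ofNat] at h
  have hn1 : n < 0 := by
    by_contra hcon
    push Not at hcon
    nlinarith [pow_nonneg hcon 3, pow_nonneg hcon 2]
  have hn2 : -4 < n := by
    by_contra hcon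
    push Not at hcon
    have : n ^ 2 * (n + 2) ≤ 0 := by
      apply mul_nonpos_of_nonneg_of_nonpos (sq_nonneg n) (by omega)
    nlinarith
  interval_cases n <;> norm_num at h

/-- Negative answer to Q1.  The polynomial `x³ + 2x² + 3x + 8` is irreducible, and for every
irreducible monic cubic `p ∈ ℤ[x]` congruent to it modulo `8`, a quadratic `q₀ ∈ ℚ[x]` such that
`p(q₀(x))` is a sum of two squares in `ℚ[x]` does not take an integer value at any rational point;
in particular such a `q₀` is never integer-valued. -/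
theorem result :
    Irreducible (X ^ 3 + 2 * X ^ 2 + 3 * X + 8 : ℤ[X]) ∧
    ∀ p : ℤ[X], p.Monic → p.natDegree = 3 → Irreducible p →
      p.coeff 2 ≡ 2 [ZMOD 8] → p.coeff 1 ≡ 3 [ZMOD 8] → p.coeff 0 ≡ 0 [ZMOD 8] →
      ∀ q₀ q₁ q₂ : ℚ[X], q₀.natDegree = 2 →
        (p.map (Int.castRingHom ℚ)).comp q₀ = q₁ ^ 2 + q₂ ^ 2 →
        ∀ (x : ℚ) (m : ℤ), q₀.eval x ≠ (m : ℚ) := by
  refine ⟨example_irreducible, ?_⟩
  intro p hm hd hirr h2 h1 h0 q₀ q₁ q₂ hq hid x m
  have e2 : ((p.coeff 2 : ℤ) : ZMod (2 ^ 3)) = ((2 : ℤ) : ZMod (2 ^ 3)) :=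
    (ZMod.intCast_eq_intCast_iff _ _ 8).mpr h2
  have e1 : ((p.coeff 1 : ℤ) : ZMod (2 ^ 3)) = ((3 : ℤ) : ZMod (2 ^ 3)) :=
    (ZMod.intCast_eq_intCast_iff _ _ 8).mpr h1
  have e0 : ((p.coeff 0 : ℤ) : ZMod (2 ^ 3)) = ((0 : ℤ) : ZMod (2 ^ 3)) :=
    (ZMod.intCast_eq_intCast_iff _ _ 8).mpr h0
  exact main hm hd hirr (by rw [e2]; rfl) (by rw [e1]; rfl) (by rw [e0]; rfl) hq hid x m

end Pool.Agent.Results.MP_93e32b_nt.NoSubst
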